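import Mathlib
import Pool.Agent.H39.SL1

set_option autoImplicit false

namespace Pool.Agent.Results.MP_3bb15c_gt.SCompleteCex
open Pool.Agent.H39.SL in
theorem result : ∃ (X : Type) (_ : TopologicalSpace X) (_ : SemilatticeInf X),
    ContinuousInf X ∧ T2Space X ∧ RegularSpace X ∧
    (∀ S : Set X, S.Nonempty → (∀ a ∈ S, ∀ b ∈ S, a ⊓ b ∈ S) →
      ∃ m, IsGLB S m ∧ m ∈ closure {z | ∃ a ∈ S, a ≤ z}) ∧
    (∀ C : Set X, C.Nonempty → IsChain (· ≤ ·) C →
      ∃ m, IsLUB C m ∧ m ∈ closure {z | ∃ a ∈ C, z ≤ a}) ∧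
    ∃ (Y : Type) (_ : TopologicalSpace Y) (_ : Semigroup Y), ContinuousMul Y ∧ T2Space Y ∧
      ∃ h : X → Y, Continuous h ∧ (∀ a b, h (a ⊓ b) = h a * h b) ∧ ¬ IsClosed (Set.range h) := by
  letI : Semigroup P := { mul := (· ⊓ ·), mul_assoc := inf_assoc }
  exact ⟨X, inferInstance, inferInstance, inferInstance, inferInstance, inferInstance, s_inf, s_sup,
    P, inferInstance, inferInstance, ⟨continuous_inf⟩, inferInstance, _, cont_val, fun _ _ => rfl,
    not_closed⟩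

end Pool.Agent.Results.MP_3bb15c_gt.SCompleteCex
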